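import Pool.Agent.Lib.MP_e7fbd4_ag.Mg.G005

/-! # F02 : natural isomorphisms: refl, symm, trans -/

set_option autoImplicit false
set_option linter.unusedSectionVars false
set_option linter.unusedVariables false

namespace Pool.Agent.Lib.MP_e7fbd4_ag

open Pool.Agent.Lib.MP_c052b4_al

theorem NatIsoOn.nonempty_refl (P : AlgClass) (F : AlgFunctor) : Nonempty (NatIsoOn P F F) :=
  ⟨{ e := fun _ _ _ _ => AddEquiv.refl _
     nat := fun _ _ _ _ => rfl }⟩

theorem NatIsoOn.nonempty_symm {P : AlgClass} {F G : AlgFunctor} (h : Nonempty (NatIsoOn P F G)) : Nonempty (NatIsoOn P G F) := by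
  obtain ⟨e⟩ := h
  refine ⟨{ e := fun A _ _ hA => (e.e A hA).symm, nat := ?_ }⟩
  intro A B _ _ _ _ hA hB f x
  apply (e.e B hB).injective
  rw [AddEquiv.apply_symm_apply, ← e.nat hA hB f, AddEquiv.apply_symm_apply]

theorem NatIsoOn.nonempty_trans {P : AlgClass} {F G H : AlgFunctor} (h : Nonempty (NatIsoOn P F G)) (h' : Nonempty (NatIsoOn P G H)) :
    Nonempty (NatIsoOn P F H) := by
  obtain ⟨e⟩ := h
  obtain ⟨e'⟩ := h'
  refine ⟨{ e := fun A _ _ hA => (e.e A hA).trans (e'.e A hA), nat := ?_ }⟩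
  intro A B _ _ _ _ hA hB f x
  rw [AddEquiv.trans_apply, AddEquiv.trans_apply, e'.nat hA hB f, e.nat hA hB f]

end Pool.Agent.Lib.MP_e7fbd4_ag
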