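import Pool.Agent.Lib.MP_e7fbd4_ag.Mg.G005

/-! # F03 : natural isomorphisms: rel -/

set_option autoImplicit false
set_option linter.unusedSectionVars false
set_option linter.unusedVariables false

namespace Pool.Agent.Lib.MP_e7fbd4_ag

open Pool.Agent.Lib.MP_c052b4_al

/-- A natural isomorphism on a class closed under `X` induces one of the functors `F.rel X`. -/
theorem NatIsoOn.nonempty_rel {P : AlgClass} {F G : AlgFunctor} (X : AlgOp)
    (hX : ∀ (A : Type) [Ring A] [Algebra ℂ A], P A → P (X.obj A))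
    (h : Nonempty (NatIsoOn P F G)) : Nonempty (NatIsoOn P (F.rel X) (G.rel X)) := by
  obtain ⟨e⟩ := h
  have key : ∀ (A : Type) [Ring A] [Algebra ℂ A] (hA : P A) (x : F.obj (X.obj A)),
      F.map (X.r A) x = 0 → G.map (X.r A) (e.e (X.obj A) (hX A hA) x) = 0 := by
    intro A _ _ hA x hx
    rw [e.nat (hX A hA) hA (X.r A) x, hx, map_zero]
  have key' : ∀ (A : Type) [Ring A] [Algebra ℂ A] (hA : P A) (y : G.obj (X.obj A)),
      G.map (X.r A) y = 0 → F.map (X.r A) ((e.e (X.obj A) (hX A hA)).symm y) = 0 := by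
    intro A _ _ hA y hy
    apply (e.e A hA).injective
    rw [← e.nat (hX A hA) hA (X.r A), AddEquiv.apply_symm_apply, hy, map_zero]
  refine ⟨{ e := fun A _ _ hA =>
      { toFun := fun x => (⟨e.e (X.obj A) (hX A hA) x.1, key A hA x.1 x.2⟩ :
          (G.map (X.r A)).ker)
        invFun := fun y => (⟨(e.e (X.obj A) (hX A hA)).symm y.1, key' A hA y.1 y.2⟩ :
          (F.map (X.r A)).ker)
        left_inv := fun x => Subtype.ext ((e.e (X.obj A) (hX A hA)).symm_apply_apply x.1)
        right_inv := fun y => Subtype.ext ((e.e (X.obj A) (hX A hA)).apply_symm_apply y.1)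
        map_add' := fun x y => Subtype.ext (map_add (e.e (X.obj A) (hX A hA)) x.1 y.1) }
            nat := ?_ }⟩
  intro A B _ _ _ _ hA hB f x
  exact Subtype.ext (e.nat (hX A hA) (hX B hB) (X.map f) x.1)

end Pool.Agent.Lib.MP_e7fbd4_ag
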