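import Pool.Agent.Lib.MP_e7fbd4_ag.Mg.G005

/-! # F04 : natural isomorphisms from bijective natural families -/

set_option autoImplicit false
set_option linter.unusedSectionVars false
set_option linter.unusedVariables false

namespace Pool.Agent.Lib.MP_e7fbd4_ag

open Pool.Agent.Lib.MP_c052b4_al

/-- A bijective family of homomorphisms which is natural. -/
theorem NatIsoOn.nonempty_of_bijective {P : AlgClass} {F G : AlgFunctor}
    (e : (A : Type) → [Ring A] → [Algebra ℂ A] → P A → (F.obj A →+ G.obj A))
    (he : ∀ (A : Type) [Ring A] [Algebra ℂ A] (hA : P A), Function.Bijective (e A hA))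
    (nat : ∀ {A B : Type} [Ring A] [Algebra ℂ A] [Ring B] [Algebra ℂ B] (hA : P A) (hB : P B)
      (f : A →ₐ[ℂ] B) (x : F.obj A), G.map f (e A hA x) = e B hB (F.map f x)) :
    Nonempty (NatIsoOn P F G) :=
  ⟨{ e := fun A _ _ hA => AddEquiv.ofBijective (e A hA) (he A hA)
     nat := fun hA hB f x => nat hA hB f x }⟩

end Pool.Agent.Lib.MP_e7fbd4_ag
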