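import Pool.Agent.Lib.MP_e7fbd4_ag.K.F04

/-! # F05 : swaps and rel -/

set_option autoImplicit false
set_option linter.unusedSectionVars false
set_option linter.unusedVariables false

namespace Pool.Agent.Lib.MP_e7fbd4_ag

open Pool.Agent.Lib.MP_c052b4_al

/-- A natural commutation isomorphism `X (Y A) ≃ Y (X A)`, compatible with the retractions. -/
structure Swap (X Y : AlgOp) where
  /-- the isomorphism -/
  e : (A : Type) → [Ring A] → [Algebra ℂ A] → (X.obj (Y.obj A) ≃ₐ[ℂ] Y.obj (X.obj A))
  nat : ∀ {A B : Type} [Ring A] [Algebra ℂ A] [Ring B] [Algebra ℂ B] (f : A →ₐ[ℂ] B)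
    (x : X.obj (Y.obj A)), e B (X.map (Y.map f) x) = Y.map (X.map f) (e A x)
  hr : ∀ (A : Type) [Ring A] [Algebra ℂ A] (x : X.obj (Y.obj A)),
    Y.r (X.obj A) (e A x) = X.map (Y.r A) x
  hr' : ∀ (A : Type) [Ring A] [Algebra ℂ A] (x : X.obj (Y.obj A)),
    Y.map (X.r A) (e A x) = X.r (Y.obj A) x

private noncomputable def F05_val (F : AlgFunctor) (X Y : AlgOp) (A : Type) [Ring A]
    [Algebra ℂ A] : ((F.rel X).rel Y).obj A →+ F.obj (X.obj (Y.obj A)) :=
  (relVal F X (Y.obj A)).comp (relVal (F.rel X) Y A)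

private theorem F05_val_injective (F : AlgFunctor) (X Y : AlgOp) (A : Type) [Ring A]
    [Algebra ℂ A] : Function.Injective (F05_val F X Y A) :=
  (relVal_injective F X (Y.obj A)).comp (relVal_injective (F.rel X) Y A)

private theorem F05_val_one (F : AlgFunctor) (X Y : AlgOp) (A : Type) [Ring A] [Algebra ℂ A]
    (x : ((F.rel X).rel Y).obj A) : F.map (X.r (Y.obj A)) (F05_val F X Y A x) = 0 :=
  relVal_ker F X (Y.obj A) _

private theorem F05_val_two (F : AlgFunctor) (X Y : AlgOp) (A : Type) [Ring A] [Algebra ℂ A]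
    (x : ((F.rel X).rel Y).obj A) : F.map (X.map (Y.r A)) (F05_val F X Y A x) = 0 := by
  have h1 := relVal_ker (F.rel X) Y A x
  have h2 : F.map (X.map (Y.r A)) (F05_val F X Y A x) =
      relVal F X A ((F.rel X).map (Y.r A) (relVal (F.rel X) Y A x)) := rfl
  rw [h2, h1, map_zero]

private theorem F05_exists (F : AlgFunctor) (X Y : AlgOp) (A : Type) [Ring A] [Algebra ℂ A]
    (z : F.obj (X.obj (Y.obj A))) (h1 : F.map (X.r (Y.obj A)) z = 0)
    (h2 : F.map (X.map (Y.r A)) z = 0) : ∃ x, F05_val F X Y A x = z := by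
  obtain ⟨y, hy⟩ := exists_relVal F X (Y.obj A) h1
  have h3 : (F.rel X).map (Y.r A) y = 0 := by
    apply relVal_injective F X A
    rw [relVal_map, hy, h2, map_zero]
  obtain ⟨x, hx⟩ := exists_relVal (F.rel X) Y A h3
  refine ⟨x, ?_⟩
  rw [← hy, ← hx]
  rfl

private theorem F05_swap (F : AlgFunctor) {X Y : AlgOp} (σ : Swap X Y) (A : Type) [Ring A]
    [Algebra ℂ A] (x : ((F.rel X).rel Y).obj A) :
    ∃ y : ((F.rel Y).rel X).obj A,
      F05_val F Y X A y = F.map (σ.e A).toAlgHom (F05_val F X Y A x) := by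
  apply F05_exists
  · rw [F.map_map]
    have h : (Y.r (X.obj A)).comp (σ.e A).toAlgHom = X.map (Y.r A) :=
      AlgHom.ext fun z => σ.hr A z
    rw [h]
    exact F05_val_two F X Y A x
  · rw [F.map_map]
    have h : (Y.map (X.r A)).comp (σ.e A).toAlgHom = X.r (Y.obj A) :=
      AlgHom.ext fun z => σ.hr' A z
    rw [h]
    exact F05_val_one F X Y A x

/-- `(F.rel Y).rel X ≅ (F.rel X).rel Y`: an element of `((F.rel Y).rel X)(A)` is an element of
`F(Y(X A))` killed by `r_Y : Y(X A) → X A` and by `Y(r_X) : Y(X A) → Y A`. -/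
theorem NatIsoOn.nonempty_swap (P : AlgClass) (F : AlgFunctor) {X Y : AlgOp} (σ : Swap X Y) :
    Nonempty (NatIsoOn P ((F.rel X).rel Y) ((F.rel Y).rel X)) := by
  have hch : ∃ g : (A : Type) → [Ring A] → [Algebra ℂ A] →
      ((F.rel X).rel Y).obj A → ((F.rel Y).rel X).obj A,
      ∀ (A : Type) [Ring A] [Algebra ℂ A] (x : ((F.rel X).rel Y).obj A),
        F05_val F Y X A (g A x) = F.map (σ.e A).toAlgHom (F05_val F X Y A x) :=
    ⟨fun A _ _ x => (F05_swap F σ A x).choose, fun A _ _ x => (F05_swap F σ A x).choose_spec⟩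
  obtain ⟨g, hg⟩ := hch
  refine NatIsoOn.nonempty_of_bijective
    (fun A _ _ _ => AddMonoidHom.mk' (g A) (fun x y => F05_val_injective F Y X A (by
      rw [map_add, hg, hg, hg, map_add, map_add]))) ?_ ?_
  · intro A _ _ hA
    constructor
    · intro x y hxy
      have h1 : g A x = g A y := hxy
      apply F05_val_injective F X Y A
      have h2 := hg A x
      rw [h1, hg A y] at h2
      exact (F.mapEquiv (σ.e A)).injective h2.symm
    · intro y
      have h1 : ∃ x, F05_val F X Y A x = F.map (σ.e A).symm.toAlgHom (F05_val F Y X A y) := by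
        apply F05_exists
        · rw [F.map_map]
          have h : (X.r (Y.obj A)).comp (σ.e A).symm.toAlgHom = Y.map (X.r A) := by
            refine AlgHom.ext fun z => ?_
            have h2 := σ.hr' A ((σ.e A).symm z)
            rw [AlgEquiv.apply_symm_apply] at h2
            exact h2.symm
          rw [h]
          exact F05_val_two F Y X A y
        · rw [F.map_map]
          have h : (X.map (Y.r A)).comp (σ.e A).symm.toAlgHom = Y.r (X.obj A) := by
            refine AlgHom.ext fun z => ?_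
            have h2 := σ.hr A ((σ.e A).symm z)
            rw [AlgEquiv.apply_symm_apply] at h2
            exact h2.symm
          rw [h]
          exact F05_val_one F Y X A y
      obtain ⟨x, hx⟩ := h1
      refine ⟨x, F05_val_injective F Y X A ?_⟩
      have h2 := hg A x
      rw [hx] at h2
      exact h2.trans ((F.mapEquiv (σ.e A)).apply_symm_apply _)
  · intro A B _ _ _ _ hA hB f x
    apply F05_val_injective F Y X B
    have h1 : F05_val F Y X B (g B (((F.rel X).rel Y).map f x)) =
        F.map (σ.e B).toAlgHom (F.map (X.map (Y.map f)) (F05_val F X Y A x)) := hg B _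
    have h2 : F05_val F Y X B (((F.rel Y).rel X).map f (g A x)) =
        F.map (Y.map (X.map f)) (F05_val F Y X A (g A x)) := rfl
    refine h2.trans (Eq.trans ?_ h1.symm)
    rw [hg, F.map_map, F.map_map]
    have h3 : (Y.map (X.map f)).comp (σ.e A).toAlgHom =
        ((σ.e B).toAlgHom).comp (X.map (Y.map f)) := AlgHom.ext fun z => (σ.nat f z).symm
    rw [h3]

end Pool.Agent.Lib.MP_e7fbd4_ag
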