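import Pool.Agent.Lib.MP_e7fbd4_ag.Mg.G002
import Pool.Agent.Lib.MP_e7fbd4_ag.Mg.G001

/-! # S02 : Loop (Poly A) = Poly (Loop A) -/

set_option autoImplicit false
set_option linter.unusedSectionVars false
set_option linter.unusedVariables false

namespace Pool.Agent.Lib.MP_e7fbd4_ag

open Matrix Pool.Agent.Lib.MP_c052b4_al

variable {A B : Type} [Ring A] [Algebra ℂ A] [Ring B] [Algebra ℂ B]

/-- `Loop (Poly A) ≃ Poly (Loop A)`, `f(s)(t) ↦ f(t)(s)`. -/
theorem exists_lp (A : Type) [Ring A] [Algebra ℂ A] :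
    ∃ e : Loop (Poly A) ≃ₐ[ℂ] Poly (Loop A), ∀ f s t, ((e f).1 s).1 t = (f.1 t).1 s := by
  have key : ∀ f : Loop (Poly A), ∃ g : Poly (Loop A), ∀ s t, (g.1 s).1 t = (f.1 t).1 s := by
    intro f
    have h1 : (fun v t => (f.1 v).1 t) ∈ Poly2 A := poly2_of_W le_rfl f.2.1
    have h2 : (fun v t => (f.1 t).1 v) ∈ Poly2 A := poly2_subst h1 poly2_snd poly2_fst
    have h3 : ∀ v, (fun t => (f.1 t).1 v) ∈ Loop A := by
      intro v
      refine ⟨poly2_curve h1 poly_id (const_mem_poly v), ?_⟩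
      change (f.1 0).1 v = (f.1 1).1 v
      rw [f.2.2]
    exact ⟨⟨fun v => ⟨fun t => (f.1 t).1 v, h3 v⟩, poly2_toW h2 h3⟩, fun s t => rfl⟩
  have key' : ∀ f : Poly (Loop A), ∃ g : Loop (Poly A), ∀ s t, (g.1 s).1 t = (f.1 t).1 s := by
    intro f
    have h1 : (fun v t => (f.1 v).1 t) ∈ Poly2 A := poly2_of_W (W := Loop A) (fun x hx => hx.1) f.2
    have h2 : (fun v t => (f.1 t).1 v) ∈ Poly2 A := poly2_subst h1 poly2_snd poly2_fst
    have h3 : ∀ v, (fun t => (f.1 t).1 v) ∈ Poly A := fun v =>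
      poly2_curve h1 poly_id (const_mem_poly v)
    refine ⟨⟨fun v => ⟨fun t => (f.1 t).1 v, h3 v⟩, poly2_toW h2 h3, ?_⟩, fun s t => rfl⟩
    refine Subtype.ext (funext fun t => ?_)
    exact (f.1 t).2.2
  choose φ hφ using key
  choose ψ hψ using key'
  have ext2 : ∀ f g : Loop (Poly A), (∀ s t, (f.1 s).1 t = (g.1 s).1 t) → f = g :=
    fun f g h => Subtype.ext (funext fun s => Subtype.ext (funext fun t => h s t))
  have ext3 : ∀ f g : Poly (Loop A), (∀ s t, (f.1 s).1 t = (g.1 s).1 t) → f = g :=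
    fun f g h => Subtype.ext (funext fun s => Subtype.ext (funext fun t => h s t))
  refine ⟨{ toFun := φ, invFun := ψ, left_inv := ?_, right_inv := ?_, map_mul' := ?_,
            map_add' := ?_, commutes' := ?_ }, hφ⟩
  · intro f
    exact ext2 _ _ fun s t => by rw [hψ, hφ]
  · intro f
    exact ext3 _ _ fun s t => by rw [hφ, hψ]
  · intro f g
    refine ext3 _ _ fun s t => ?_
    rw [hφ]
    change (f.1 t).1 s * (g.1 t).1 s = ((φ f).1 s).1 t * ((φ g).1 s).1 t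
    rw [hφ, hφ]
  · intro f g
    refine ext3 _ _ fun s t => ?_
    rw [hφ]
    change (f.1 t).1 s + (g.1 t).1 s = ((φ f).1 s).1 t + ((φ g).1 s).1 t
    rw [hφ, hφ]
  · intro c
    refine ext3 _ _ fun s t => ?_
    rw [hφ]
    rfl

/-- `Loop (Poly A) ≃ Poly (Loop A)` -/
noncomputable def lpE (A : Type) [Ring A] [Algebra ℂ A] : Loop (Poly A) ≃ₐ[ℂ] Poly (Loop A) :=
  (exists_lp A).choose

theorem lpE_apply (f : Loop (Poly A)) (s t : ℂ) : ((lpE A f).1 s).1 t = (f.1 t).1 s :=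
  (exists_lp A).choose_spec f s t

end Pool.Agent.Lib.MP_e7fbd4_ag
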